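import Pool.Agent.H32.Dense.Pair
import Pool.Agent.H90.STK.Defs

/-!
# The same radius principle

`srp_sum`: for an increasing chain of records `R k` and blocks `V k` which are functions of `R k` and
`R (k + 1)`, the informations between `V k` and a fixed variable `D` given `R k` have a sum at most
the entropy of `D`. `srp`: blocks which are full given the records are full given the records and `D`,
outside few `k`. `srp_cond`: the same given a further variable `D₀`. `srp_fun`: and given functions of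
these data.

`mix_ae`, `mix_ae_shear`: for a Lipschitz function `g a q` with mixed differences `≤ 0` (entropy rate of
the record of radius `a` given the digits `q` of `D`), at almost all `(a, q)` the mixed difference over
`[a - X, a + X] × [q - e, q + e]` is at most `ε X` for `e ≤ e(ε)` and `X ≤ X(ε)`.
-/

set_option autoImplicit false

namespace Pool.SRP

open Finset MeasureTheory
open Pool.Agent.H49.Ent Pool.Agent.H32.Dense Pool.STK

section pure

variable {Ω : Type} [Fintype Ω] {T T' : Type} {ρ σ : ℕ → Type} {p : Ω → ℝ}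

/-- **The telescope.** -/
theorem srp_sum (hp : IsLaw p) {R : ∀ k, Ω → ρ k} {V : ∀ k, Ω → σ k} {D : Ω → T} (n : ℕ)
    (hR : ∀ k < n, Det p (R (k + 1)) (R k)) (hV : ∀ k < n, Det p (R (k + 1)) (V k)) :
    ∑ k ∈ range n, (CH p (V k) (R k) - CH p (V k) (fun ω => (D ω, R k ω))) ≤
      CH p D (R 0) - CH p D (R n) := by
  have h0 := hp.nonneg
  have key : ∀ k < n, CH p (V k) (R k) - CH p (V k) (fun ω => (D ω, R k ω)) ≤
      CH p D (R k) - CH p D (R (k + 1)) := by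
    intro k hk
    have e1 := CH_bayes h0 (V k) D (R k)
    have e2 : CH p D (R (k + 1)) ≤ CH p D (fun ω => (V k ω, R k ω)) := CH_mono_cond h0 (by
      intro ω ω' a a' e
      exact Prod.ext (hV k hk ω ω' a a' e) (hR k hk ω ω' a a' e))
    linarith
  calc ∑ k ∈ range n, (CH p (V k) (R k) - CH p (V k) (fun ω => (D ω, R k ω)))
      ≤ ∑ k ∈ range n, (CH p D (R k) - CH p D (R (k + 1))) :=
        sum_le_sum fun k hk => key k (mem_range.mp hk)
    _ = CH p D (R 0) - CH p D (R n) := sum_range_sub' (fun k => CH p D (R k)) n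

theorem srp_nonneg (hp : IsLaw p) {R : ∀ k, Ω → ρ k} {V : ∀ k, Ω → σ k} {D : Ω → T} (k : ℕ) :
    0 ≤ CH p (V k) (R k) - CH p (V k) (fun ω => (D ω, R k ω)) :=
  sub_nonneg.mpr (CH_mono_cond hp.nonneg fun _ _ _ _ e => (Prod.ext_iff.mp e).2)

/-- **SAME-RADIUS PRINCIPLE.** The number of the blocks which lose more than `η` is at most
`H(D | R 0) / η`. -/
theorem srp (hp : IsLaw p) {R : ∀ k, Ω → ρ k} {V : ∀ k, Ω → σ k} {D : Ω → T} {n : ℕ}
    (hR : ∀ k < n, Det p (R (k + 1)) (R k)) (hV : ∀ k < n, Det p (R (k + 1)) (V k))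
    {f : ℕ → ℝ} {η : ℝ} (hf : ∀ k < n, f k ≤ CH p (V k) (R k)) :
    η * ((range n).filter fun k => CH p (V k) (fun ω => (D ω, R k ω)) ≤ f k - η).card ≤
      CH p D (R 0) := by
  classical
  have h0 := hp.nonneg
  have h1 := srp_sum hp (D := D) n hR hV
  have h2 : 0 ≤ CH p D (R n) := CH_nonneg h0 _ _
  have h3 : ∑ k ∈ (range n).filter (fun k => CH p (V k) (fun ω => (D ω, R k ω)) ≤ f k - η), η ≤
      ∑ k ∈ (range n).filter (fun k => CH p (V k) (fun ω => (D ω, R k ω)) ≤ f k - η),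
        (CH p (V k) (R k) - CH p (V k) (fun ω => (D ω, R k ω))) := by
    refine sum_le_sum fun k hk => ?_
    have a := mem_filter.mp hk
    have b := hf k (mem_range.mp a.1)
    linarith [a.2]
  have h4 : ∑ k ∈ (range n).filter (fun k => CH p (V k) (fun ω => (D ω, R k ω)) ≤ f k - η),
        (CH p (V k) (R k) - CH p (V k) (fun ω => (D ω, R k ω))) ≤
      ∑ k ∈ range n, (CH p (V k) (R k) - CH p (V k) (fun ω => (D ω, R k ω))) :=
    sum_le_sum_of_subset_of_nonneg (filter_subset _ _) fun k _ _ => srp_nonneg hp k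
  rw [sum_const, nsmul_eq_mul] at h3
  linarith

/-- The same given a fixed variable `D₀` (the digits of the velocity up to `q`). -/
theorem srp_cond (hp : IsLaw p) {R : ∀ k, Ω → ρ k} {V : ∀ k, Ω → σ k} {D₀ : Ω → T'} {D : Ω → T}
    {n : ℕ} (hR : ∀ k < n, Det p (R (k + 1)) (R k)) (hV : ∀ k < n, Det p (R (k + 1)) (V k))
    {f : ℕ → ℝ} {η : ℝ} (hf : ∀ k < n, f k ≤ CH p (V k) (fun ω => (D₀ ω, R k ω))) :
    η * ((range n).filter fun k => CH p (V k) (fun ω => (D ω, (D₀ ω, R k ω))) ≤ f k - η).card ≤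
      CH p D (fun ω => (D₀ ω, R 0 ω)) := by
  have := srp (ρ := fun k => T' × ρ k) hp (R := fun k ω => (D₀ ω, R k ω)) (V := V) (D := D) (n := n)
    (f := f) (η := η) (fun k hk ω ω' a a' e => Prod.ext (Prod.ext_iff.mp e).1
      (hR k hk ω ω' a a' (Prod.ext_iff.mp e).2))
    (fun k hk ω ω' a a' e => hV k hk ω ω' a a' (Prod.ext_iff.mp e).2) hf
  exact this

/-- Full given functions of the record, of the block of the velocity and of the side information. -/
theorem srp_fun (hp : IsLaw p) {S U W : Type} {B : Ω → S} {Q : Ω → U} {Q' : Ω → W} {x : ℝ}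
    (h : x ≤ CH p B Q) (hd : Det p Q Q') : x ≤ CH p B Q' :=
  h.trans (CH_mono_cond hp.nonneg hd)

/-- A few bits of further side information: labels which are functions of the record up to a choice
among few values. -/
theorem srp_add (hp : IsLaw p) {S U W : Type} {B : Ω → S} {Q : Ω → U} {Q' : Ω → W} {x θ : ℝ}
    (h : x ≤ CH p B Q) (hd : CH p Q' Q ≤ θ) : x - θ ≤ CH p B (fun ω => (Q' ω, Q ω)) := by
  have e1 := CH_bayes hp.nonneg B Q' Q
  have e2 : 0 ≤ CH p Q' (fun ω => (B ω, Q ω)) := CH_nonneg hp.nonneg _ _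
  linarith

/-- **From the mixed difference to the block.** `R` record, `R'` the next record, `V` the block, `D₀`
and `D` the digits of the velocity to two depths. -/
theorem mix_block (hp : IsLaw p) {A A' B U U' : Type} {R : Ω → A} {R' : Ω → A'} {V : Ω → B}
    {D₀ : Ω → U} {D : Ω → U'} (hR : Det p R' R) (hV : Det p R' V) (hD : Det p D D₀) :
    CH p V (fun ω => (D₀ ω, R ω)) - CH p V (fun ω => (D ω, R ω)) ≤
      (CH p R' D₀ - CH p R D₀) - (CH p R' D - CH p R D) := by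
  have h0 := hp.nonneg
  -- chain rules
  have step : ∀ {W : Type} (E : Ω → W), CH p R' E - CH p R E = CH p R' (fun ω => (R ω, E ω)) := by
    intro W E
    have e1 := CH_chain h0 R' R E
    have e2 : CH p (fun ω => (R' ω, R ω)) E = CH p R' E := by
      refine CH_congr h0 ?_ ?_ ?_ ?_
      · intro ω ω' _ _ e
        exact (Prod.ext_iff.mp (Prod.ext_iff.mp e).1).1
      · intro ω ω' a a' e
        exact Prod.ext (Prod.ext_iff.mp e).1 (hR ω ω' a a' (Prod.ext_iff.mp e).1)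
      · intro ω ω' _ _ e
        exact e
      · intro ω ω' _ _ e
        exact e
    linarith
  have s1 := step D₀
  have s2 := step D
  -- the informations
  have b1 := CH_bayes h0 R' D (fun ω => (D₀ ω, R ω))
  have b2 := CH_bayes h0 V D (fun ω => (D₀ ω, R ω))
  have c1 : CH p R' (fun ω => (D ω, (D₀ ω, R ω))) = CH p R' (fun ω => (R ω, D ω)) := by
    refine CH_congr h0 ?_ ?_ ?_ ?_
    · intro ω ω' _ _ e
      exact (Prod.ext_iff.mp e).1
    · intro ω ω' _ _ e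
      exact (Prod.ext_iff.mp e).1
    · intro ω ω' _ _ e
      simp only [Prod.mk.injEq] at e ⊢
      exact ⟨e.2.2, e.1⟩
    · intro ω ω' a a' e
      simp only [Prod.mk.injEq] at e ⊢
      exact ⟨e.2, hD ω ω' a a' e.2, e.1⟩
  have c2 : CH p V (fun ω => (D ω, (D₀ ω, R ω))) = CH p V (fun ω => (D ω, R ω)) := by
    refine CH_congr h0 ?_ ?_ ?_ ?_
    · intro ω ω' _ _ e
      exact (Prod.ext_iff.mp e).1
    · intro ω ω' _ _ e
      exact (Prod.ext_iff.mp e).1
    · intro ω ω' _ _ e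
      simp only [Prod.mk.injEq] at e ⊢
      exact ⟨e.1, e.2.2⟩
    · intro ω ω' a a' e
      simp only [Prod.mk.injEq] at e ⊢
      exact ⟨e.1, hD ω ω' a a' e.1, e.2⟩
  have c3 : CH p R' (fun ω => (D₀ ω, R ω)) = CH p R' (fun ω => (R ω, D₀ ω)) := by
    refine CH_congr h0 ?_ ?_ ?_ ?_ <;>
    · intro ω ω' _ _ e
      simp only [Prod.mk.injEq] at e ⊢
      tauto
  have c4 : CH p D (fun ω => (R' ω, (D₀ ω, R ω))) ≤ CH p D (fun ω => (V ω, (D₀ ω, R ω))) :=
    CH_mono_cond h0 (by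
      intro ω ω' a a' e
      simp only [Prod.mk.injEq] at e ⊢
      exact ⟨hV ω ω' a a' e.1, e.2⟩)
  linarith

end pure

/-! ### Almost all radii and depths -/

/-- The mixed difference. -/
def mix (g : ℝ → ℝ → ℝ) (a a' q q' : ℝ) : ℝ := (g a' q - g a q) - (g a' q' - g a q')

/-- Derivatives in the first variable at the rational values of the second one. -/
theorem ratio_near {f : ℝ → ℝ} {a : ℝ} (h : DifferentiableAt ℝ f a) {ε : ℝ} (hε : 0 < ε) :
    ∃ X : ℝ, 0 < X ∧ ∀ a₁ a₂ : ℝ, a - X ≤ a₁ → a₁ ≤ a → a ≤ a₂ → a₂ ≤ a + X →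
      |f a₂ - f a₁ - deriv f a * (a₂ - a₁)| ≤ ε * (a₂ - a₁) := by
  have h1 := h.hasDerivAt.isLittleO
  rw [Asymptotics.isLittleO_iff] at h1
  obtain ⟨X, hX, h2⟩ := Metric.eventually_nhds_iff.mp (h1 hε)
  refine ⟨X / 2, by positivity, fun a₁ a₂ b1 b2 b3 b4 => ?_⟩
  have c1 := @h2 a₁ (by rw [Real.dist_eq, abs_lt]; constructor <;> linarith)
  have c2 := @h2 a₂ (by rw [Real.dist_eq, abs_lt]; constructor <;> linarith)
  simp only [smul_eq_mul, Real.norm_eq_abs] at c1 c2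
  rw [abs_of_nonpos (by linarith : a₁ - a ≤ 0)] at c1
  rw [abs_of_nonneg (by linarith : 0 ≤ a₂ - a)] at c2
  rw [abs_le] at c1 c2 ⊢
  constructor <;> nlinarith [c1.1, c1.2, c2.1, c2.2]

/-- An antitone function on the rationals is continuous outside a countable set. -/
theorem anti_rat {φ : ℚ → ℝ} (hφ : Antitone φ) {C : ℝ} (hC : ∀ r, |φ r| ≤ C) :
    ∃ N : Set ℝ, N.Countable ∧ ∀ q, q ∉ N → ∀ ε : ℝ, 0 < ε →
      ∃ r₁ r₂ : ℚ, (r₁ : ℝ) < q ∧ q < r₂ ∧ φ r₁ ≤ φ r₂ + ε := by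
  obtain ⟨ψ, hψ⟩ : ∃ ψ : ℝ → ℝ, ψ = fun q => ⨅ r : {r : ℚ // (r : ℝ) < q}, φ r := ⟨_, rfl⟩
  have bdd : ∀ q : ℝ, BddBelow (Set.range fun r : {r : ℚ // (r : ℝ) < q} => φ r) := by
    intro q
    refine ⟨-C, ?_⟩
    rintro _ ⟨r, rfl⟩
    exact (abs_le.mp (hC r)).1
  have ne : ∀ q : ℝ, Nonempty {r : ℚ // (r : ℝ) < q} := fun q => by
    obtain ⟨r, hr⟩ := exists_rat_lt q
    exact ⟨r, hr⟩
  have anti : Antitone ψ := by
    intro q q' hq
    rw [hψ]
    have := ne q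
    refine le_ciInf fun r => ?_
    exact ciInf_le (bdd q') ⟨r.1, lt_of_lt_of_le r.2 hq⟩
  -- comparison
  have lo : ∀ r : ℚ, φ r ≤ ψ r := by
    intro r
    rw [hψ]
    have := ne r
    refine le_ciInf fun s => hφ ?_
    exact_mod_cast s.2.le
  have hi : ∀ (r : ℚ) (q : ℝ), (r : ℝ) < q → ψ q ≤ φ r := by
    intro r q hr
    rw [hψ]
    exact ciInf_le (bdd q) ⟨r, hr⟩
  refine ⟨{q | ¬ ContinuousAt ψ q}, anti.countable_not_continuousAt, fun q hq ε hε => ?_⟩
  have hq : ContinuousAt ψ q := not_not.mp hq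
  obtain ⟨δ, hδ, h1⟩ := Metric.continuousAt_iff.mp hq (ε / 2) (by positivity)
  obtain ⟨r₁, a1, a2⟩ := exists_rat_btwn (show q - δ < q by linarith)
  obtain ⟨r₂, b1, b2⟩ := exists_rat_btwn (show q < q + δ by linarith)
  refine ⟨r₁, r₂, a2, b1, ?_⟩
  have c1 := lo r₁
  have c2 := hi r₂ ((r₂ + (q + δ)) / 2) (by linarith)
  have d1 := @h1 r₁ (by rw [Real.dist_eq, abs_lt]; constructor <;> linarith)
  have d2 := @h1 ((r₂ + (q + δ)) / 2) (by rw [Real.dist_eq, abs_lt]; constructor <;> linarith)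
  rw [Real.dist_eq, abs_lt] at d1 d2
  linarith [d1.1, d1.2, d2.1, d2.2]

/-- **Almost all radii and depths.** -/
theorem mix_ae {g : ℝ → ℝ → ℝ} {C : ℝ} (hL : ∀ q a a', |g a q - g a' q| ≤ C * |a - a'|)
    (hm : ∀ a a' q q', a ≤ a' → q ≤ q' → 0 ≤ mix g a a' q q') :
    ∀ᵐ a : ℝ, ∃ N : Set ℝ, N.Countable ∧ ∀ q, q ∉ N → ∀ ε : ℝ, 0 < ε →
      ∃ e X : ℝ, 0 < e ∧ 0 < X ∧ ∀ a₁ a₂ q₁ q₂ : ℝ, a - X ≤ a₁ → a₁ ≤ a → a ≤ a₂ → a₂ ≤ a + X →
        q - e ≤ q₁ → q₁ ≤ q₂ → q₂ ≤ q + e → mix g a₁ a₂ q₁ q₂ ≤ ε * (a₂ - a₁) := by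
  have hC : 0 ≤ C := by
    have := hL 0 0 1
    have h1 : |(0 : ℝ) - 1| = 1 := by norm_num
    rw [h1, mul_one] at this
    exact (abs_nonneg _).trans this
  have h1 : ∀ r : ℚ, ∀ᵐ a : ℝ, DifferentiableAt ℝ (fun a => g a r) a := by
    intro r
    have : LipschitzWith (Real.toNNReal C) (fun a => g a r) := by
      refine LipschitzWith.of_dist_le_mul fun x y => ?_
      rw [Real.dist_eq, Real.dist_eq, Real.coe_toNNReal C hC]
      exact hL r x y
    exact this.ae_differentiableAt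
  have h2 := ae_all_iff.mpr h1
  filter_upwards [h2] with a ha
  obtain ⟨φ, hφ⟩ : ∃ φ : ℚ → ℝ, φ = fun r : ℚ => deriv (fun a => g a r) a := ⟨_, rfl⟩
  have near : ∀ r : ℚ, ∀ ε : ℝ, 0 < ε → ∃ X : ℝ, 0 < X ∧ ∀ a₁ a₂ : ℝ, a - X ≤ a₁ → a₁ ≤ a →
      a ≤ a₂ → a₂ ≤ a + X → |g a₂ r - g a₁ r - φ r * (a₂ - a₁)| ≤ ε * (a₂ - a₁) := by
    intro r ε hε
    obtain ⟨X, hX, h⟩ := ratio_near (ha r) hε
    refine ⟨X, hX, fun a₁ a₂ b1 b2 b3 b4 => ?_⟩
    have := h a₁ a₂ b1 b2 b3 b4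
    rw [hφ]
    exact this
  have anti : Antitone φ := by
    intro r s hrs
    refine le_of_forall_pos_le_add fun ε hε => ?_
    obtain ⟨X, hX, k1⟩ := near r (ε / 2) (by positivity)
    obtain ⟨X', hX', k2⟩ := near s (ε / 2) (by positivity)
    have m1 : 0 < min X X' := lt_min hX hX'
    have l1 := k1 a (a + min X X') (by linarith) le_rfl (by linarith)
      (by linarith [min_le_left X X'])
    have l2 := k2 a (a + min X X') (by linarith) le_rfl (by linarith)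
      (by linarith [min_le_right X X'])
    have l3 := hm a (a + min X X') r s (by linarith) (by exact_mod_cast hrs)
    unfold mix at l3
    rw [abs_le] at l1 l2
    have l4 : φ s * min X X' ≤ (φ r + ε) * min X X' := by
      have e : a + min X X' - a = min X X' := by ring
      rw [e] at l1 l2
      nlinarith [l1.1, l1.2, l2.1, l2.2]
    exact le_of_mul_le_mul_right l4 m1
  have bd : ∀ r, |φ r| ≤ C := by
    intro r
    refine le_of_forall_pos_le_add fun ε hε => ?_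
    obtain ⟨X, hX, k1⟩ := near r ε hε
    have l1 := k1 a (a + X) (by linarith) le_rfl (by linarith) le_rfl
    have l2 := hL r (a + X) a
    have e : a + X - a = X := by ring
    rw [e] at l1 l2
    rw [abs_of_pos hX] at l2
    have l3 : |φ r| * X ≤ (C + ε) * X := by
      have : |φ r| * X = |φ r * X| := by rw [abs_mul, abs_of_pos hX]
      rw [this]
      rw [abs_le] at l1 l2 ⊢
      constructor <;> linarith [l1.1, l1.2, l2.1, l2.2]
    exact le_of_mul_le_mul_right l3 hX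
  obtain ⟨N, hN, hN'⟩ := anti_rat anti bd
  refine ⟨N, hN, fun q hq ε hε => ?_⟩
  obtain ⟨r₁, r₂, a1, a2, a3⟩ := hN' q hq (ε / 3) (by positivity)
  obtain ⟨X, hX, k1⟩ := near r₁ (ε / 3) (by positivity)
  obtain ⟨X', hX', k2⟩ := near r₂ (ε / 3) (by positivity)
  refine ⟨min (q - r₁) (r₂ - q), min X X', lt_min (by linarith) (by linarith), lt_min hX hX',
    fun b₁ b₂ q₁ q₂ c1 c2 c3 c4 c5 c6 c7 => ?_⟩
  have l1 := k1 b₁ b₂ (by linarith [min_le_left X X']) c2 c3 (by linarith [min_le_left X X'])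
  have l2 := k2 b₁ b₂ (by linarith [min_le_right X X']) c2 c3 (by linarith [min_le_right X X'])
  have d1 : (r₁ : ℝ) ≤ q₁ := by linarith [min_le_left (q - r₁) (r₂ - q)]
  have d2 : q₂ ≤ (r₂ : ℝ) := by linarith [min_le_right (q - r₁) (r₂ - q)]
  have m1 := hm b₁ b₂ r₁ q₁ (by linarith) d1
  have m2 := hm b₁ b₂ q₂ r₂ (by linarith) d2
  unfold mix at m1 m2 ⊢
  rw [abs_le] at l1 l2
  nlinarith [l1.1, l1.2, l2.1, l2.2, mul_nonneg (show (0 : ℝ) ≤ φ r₂ + ε / 3 - φ r₁ by linarith)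
    (show (0 : ℝ) ≤ b₂ - b₁ by linarith)]

/-- The same for almost all radii `a` and windows `w`, at the depth `a - w`. -/
theorem mix_ae_shear {g : ℝ → ℝ → ℝ} {C : ℝ} (hL : ∀ q a a', |g a q - g a' q| ≤ C * |a - a'|)
    (hm : ∀ a a' q q', a ≤ a' → q ≤ q' → 0 ≤ mix g a a' q q') :
    ∀ᵐ a : ℝ, ∃ N : Set ℝ, N.Countable ∧ ∀ w, w ∉ N → ∀ ε : ℝ, 0 < ε →
      ∃ e X : ℝ, 0 < e ∧ 0 < X ∧ ∀ a₁ a₂ q₁ q₂ : ℝ, a - X ≤ a₁ → a₁ ≤ a → a ≤ a₂ → a₂ ≤ a + X →
        a - w - e ≤ q₁ → q₁ ≤ q₂ → q₂ ≤ a - w + e → mix g a₁ a₂ q₁ q₂ ≤ ε * (a₂ - a₁) := by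
  filter_upwards [mix_ae hL hm] with a ha
  obtain ⟨N, hN, h⟩ := ha
  refine ⟨(fun w => a - w) ⁻¹' N, hN.preimage (sub_right_injective), fun w hw ε hε => ?_⟩
  exact h (a - w) hw ε hε

end Pool.SRP
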